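import Mathlib
import Pool.Agent.H18PC.PC

set_option autoImplicit false

/-!
Products of conjugacy classes in a metabelian group are unions of cosets of `[N, N]` (helper96's
L2, board row 1288).
-/

namespace Pool.Agent.H19MB

open Pool.Agent.H18PC

variable {M : Type*} [Group M]

theorem conj_mem_conjProd (as : List M) (g x : M) (hx : x ∈ conjProd as) :
    g * x * g⁻¹ ∈ conjProd as := by
  induction as generalizing x with
  | nil =>
    have : x = 1 := hx
    rw [this]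
    change g * 1 * g⁻¹ = 1
    group
  | cons b bs ih =>
    obtain ⟨h, z, hz, rfl⟩ := hx
    exact ⟨g * h, g * z * g⁻¹, ih z hz, by group⟩

/-- one may change the conjugate of one member of the list -/
theorem split (as : List M) (a x : M) (ha : a ∈ as) (hx : x ∈ conjProd as) :
    ∃ P R g : M, x = P * (g * a * g⁻¹) * R ∧ ∀ g', P * (g' * a * g'⁻¹) * R ∈ conjProd as := by
  induction as generalizing x with
  | nil => exact absurd ha List.not_mem_nil
  | cons b bs ih =>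
    obtain ⟨h, z, hz, rfl⟩ := hx
    rcases List.mem_cons.1 ha with rfl | ha
    · exact ⟨1, z, h, by group, fun g' => ⟨g', z, hz, by group⟩⟩
    · obtain ⟨P, R, g, hP, hR⟩ := ih z ha hz
      exact ⟨h * b * h⁻¹ * P, R, g, by rw [hP]; group,
        fun g' => ⟨h, P * (g' * a * g'⁻¹) * R, hR g', by group⟩⟩

/-- the stabiliser of a product of classes -/
def Q (as : List M) : Subgroup M where
  carrier := {z | ∀ x ∈ conjProd as, z * x ∈ conjProd as ∧ z⁻¹ * x ∈ conjProd as}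
  one_mem' := fun x hx => by simpa using hx
  mul_mem' := by
    intro z w hz hw x hx
    refine ⟨?_, ?_⟩
    · rw [mul_assoc]
      exact (hz _ (hw x hx).1).1
    · rw [mul_inv_rev, mul_assoc]
      exact (hw _ (hz x hx).2).2
  inv_mem' := by
    intro z hz x hx
    refine ⟨(hz x hx).2, ?_⟩
    rw [inv_inv]
    exact (hz x hx).1

theorem Q_normal (as : List M) : (Q as).Normal := by
  refine ⟨fun z hz g x hx => ?_⟩
  have h1 : g⁻¹ * x * g ∈ conjProd as := by
    have := conj_mem_conjProd as g⁻¹ x hx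
    rwa [inv_inv] at this
  refine ⟨?_, ?_⟩
  · have := conj_mem_conjProd as g _ (hz _ h1).1
    convert this using 1
    group
  · have := conj_mem_conjProd as g _ (hz _ h1).2
    convert this using 1
    group

variable (M0 : Subgroup M)

theorem step1 (hn : M0.Normal) (hM0 : ∀ x ∈ M0, ∀ y ∈ M0, x * y = y * x)
    (hab : ∀ x y : M, x * y * x⁻¹ * y⁻¹ ∈ M0) (as : List M) (a m x : M) (ha : a ∈ as)
    (hm : m ∈ M0) (hx : x ∈ conjProd as) : a * m * a⁻¹ * m⁻¹ * x ∈ conjProd as := by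
  obtain ⟨P, R, g, rfl, hR⟩ := split as a x ha hx
  have hm' : P⁻¹ * m * P ∈ M0 := by
    have := hn.conj_mem m hm P⁻¹
    rwa [inv_inv] at this
  have hbm : ∀ y : M, ∀ w ∈ M0, y * w * y⁻¹ ∈ M0 := fun y w hw => hn.conj_mem w hw y
  -- `P⁻¹ a P = u b`
  have hu : (P⁻¹ * a * P) * (g * a * g⁻¹)⁻¹ ∈ M0 := by
    have h1 := hab P⁻¹ a
    rw [inv_inv] at h1
    have h2 := M0.inv_mem (hab g a)
    have h3 := M0.mul_mem h1 h2
    convert h3 using 1
    group
  set u := (P⁻¹ * a * P) * (g * a * g⁻¹)⁻¹ with hu_def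
  set b := g * a * g⁻¹ with hb
  set m' := P⁻¹ * m * P with hm'_def
  have e1 : P⁻¹ * a * P = u * b := by rw [hu_def]; group
  have e2 : u * (b * m' * b⁻¹) = (b * m' * b⁻¹) * u := hM0 _ hu _ (hbm b m' hm')
  have e3 : m'⁻¹ * (b * m' * b⁻¹) = (b * m' * b⁻¹) * m'⁻¹ :=
    hM0 _ (M0.inv_mem hm') _ (hbm b m' hm')
  have e4 : a = P * (u * b) * P⁻¹ := by rw [← e1]; group
  have e5 : m = P * m' * P⁻¹ := by rw [hm'_def]; group
  have e6 : a * m * a⁻¹ * m⁻¹ = P * (b * m' * b⁻¹ * m'⁻¹) * P⁻¹ := by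
    calc a * m * a⁻¹ * m⁻¹ = P * ((u * (b * m' * b⁻¹)) * u⁻¹ * m'⁻¹) * P⁻¹ := by
          rw [e5]
          conv_lhs => rw [e4]
          group
      _ = P * (b * m' * b⁻¹ * m'⁻¹) * P⁻¹ := by
          rw [e2]
          group
  have e7 : a * m * a⁻¹ * m⁻¹ * (P * b * R) =
      P * ((m'⁻¹ * g) * a * (m'⁻¹ * g)⁻¹) * R := by
    rw [e6]
    calc P * (b * m' * b⁻¹ * m'⁻¹) * P⁻¹ * (P * b * R)
        = P * ((b * m' * b⁻¹) * m'⁻¹) * b * R := by group
      _ = P * (m'⁻¹ * (b * m' * b⁻¹)) * b * R := by rw [e3]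
      _ = P * ((m'⁻¹ * g) * a * (m'⁻¹ * g)⁻¹) * R := by rw [hb]; group
  rw [e7]
  exact hR _

theorem mem_Q1 (hn : M0.Normal) (hM0 : ∀ x ∈ M0, ∀ y ∈ M0, x * y = y * x)
    (hab : ∀ x y : M, x * y * x⁻¹ * y⁻¹ ∈ M0) (as : List M) (a m : M) (ha : a ∈ as)
    (hm : m ∈ M0) : a * m * a⁻¹ * m⁻¹ ∈ Q as := by
  intro x hx
  refine ⟨step1 M0 hn hM0 hab as a m x ha hm hx, ?_⟩
  have h1 := step1 M0 hn hM0 hab as a m⁻¹ x ha (M0.inv_mem hm) hx
  have h2 : m * (a * m⁻¹ * a⁻¹) = (a * m⁻¹ * a⁻¹) * m :=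
    hM0 _ hm _ (hn.conj_mem _ (M0.inv_mem hm) a)
  have h3 : (a * m * a⁻¹ * m⁻¹)⁻¹ = a * m⁻¹ * a⁻¹ * m⁻¹⁻¹ := by
    rw [inv_inv, ← h2]
    group
  rw [h3]
  exact h1

/-- helper96's L2 -/
theorem conjProd_comm_mul (hn : M0.Normal)
    (hM0 : ∀ x ∈ M0, ∀ y ∈ M0, x * y = y * x) (hab : ∀ x y : M, x * y * x⁻¹ * y⁻¹ ∈ M0)
    (as : List M) (N : Subgroup M) (hN : N = M0 ⊔ Subgroup.closure {a | a ∈ as})
    (x z : M) (hx : x ∈ conjProd as) (hz : z ∈ ⁅N, N⁆) : z * x ∈ conjProd as := by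
  have hQn := Q_normal as
  let π : M →* M ⧸ Q as := QuotientGroup.mk' (Q as)
  have hπ : ∀ q, q ∈ Q as ↔ π q = 1 := fun q => (QuotientGroup.eq_one_iff q).symm
  have hcomm_iff : ∀ p q : M, p * q * p⁻¹ * q⁻¹ ∈ Q as ↔ π p * π q = π q * π p := by
    intro p q
    rw [hπ, map_mul, map_mul, map_mul, map_inv, map_inv]
    constructor
    · intro h
      have := mul_eq_one_iff_eq_inv.1 h
      rw [inv_inv, mul_inv_eq_iff_eq_mul] at this
      exact this
    · intro h
      rw [h]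
      group
  have c1 : ∀ a ∈ as, ∀ m ∈ M0, π a * π m = π m * π a := fun a ha m hm =>
    (hcomm_iff a m).1 (mem_Q1 M0 hn hM0 hab as a m ha hm)
  -- conjugates of members commute with `M0` as well
  have c2 : ∀ a ∈ as, ∀ g, ∀ m ∈ M0, π (g * a * g⁻¹) * π m = π m * π (g * a * g⁻¹) := by
    intro a ha g m hm
    have h1 : g⁻¹ * m * g ∈ M0 := by
      have := hn.conj_mem m hm g⁻¹
      rwa [inv_inv] at this
    have h2 := c1 a ha _ h1
    simp only [map_mul, map_inv] at h2 ⊢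
    calc π g * π a * (π g)⁻¹ * π m = π g * (π a * ((π g)⁻¹ * π m * π g)) * (π g)⁻¹ := by group
      _ = π g * (((π g)⁻¹ * π m * π g) * π a) * (π g)⁻¹ := by rw [h2]
      _ = π m * (π g * π a * (π g)⁻¹) := by group
  have key : ∀ a ∈ as, ∀ b ∈ as, ∀ x ∈ conjProd as, b * a * b⁻¹ * a⁻¹ * x ∈ conjProd as := by
    intro a ha b hb x hx
    obtain ⟨P, R, g, rfl, hR⟩ := split as a x ha hx
    have hu : b⁻¹ * (P⁻¹ * b * P) ∈ M0 := by
      have h1 := hab b⁻¹ P⁻¹
      rw [inv_inv, inv_inv] at h1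
      convert h1 using 1
      group
    have hv : (g * a * g⁻¹)⁻¹ * (P⁻¹ * a * P) ∈ M0 := by
      have h1 := hab g a⁻¹
      have h2 := hab a⁻¹ P⁻¹
      rw [inv_inv] at h1
      rw [inv_inv, inv_inv] at h2
      have h3 := M0.mul_mem h1 h2
      convert h3 using 1
      group
    set u := b⁻¹ * (P⁻¹ * b * P) with hu_def
    set c := g * a * g⁻¹ with hc
    set v := c⁻¹ * (P⁻¹ * a * P) with hv_def
    have e1 : b = P * (b * u) * P⁻¹ := by rw [hu_def]; group
    have e2 : a = P * (c * v) * P⁻¹ := by rw [hv_def]; group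
    have hq : P * ((b * u) * (c * v) * (b * u)⁻¹ * (c * v)⁻¹ * (b * c * b⁻¹ * c⁻¹)⁻¹) * P⁻¹
        ∈ Q as := by
      rw [hπ]
      have k1 := c2 a ha g u hu
      have k2 := c2 a ha g v hv
      have k3 := c1 b hb u hu
      have k4 := c1 b hb v hv
      have k5 : π u * π v = π v * π u := by rw [← map_mul, hM0 u hu v hv, map_mul]
      rw [← hc] at k1 k2
      have l1 : π ((b * u) * (c * v) * (b * u)⁻¹ * (c * v)⁻¹) = π (b * c * b⁻¹ * c⁻¹) := by
        have C1 : Commute (π u) (π c) := k1.symm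
        have C2 : Commute (π v) (π c) := k2.symm
        have C3 : Commute (π u) (π b) := k3.symm
        have C4 : Commute (π v) (π b) := k4.symm
        have C5 : Commute (π u) (π v) := k5
        simp only [map_mul, map_inv, mul_inv_rev]
        calc π b * π u * (π c * π v) * ((π u)⁻¹ * (π b)⁻¹) * ((π v)⁻¹ * (π c)⁻¹)
            = π b * ((π u * (π c * π v)) * (π u)⁻¹) * (π b)⁻¹ * ((π v)⁻¹ * (π c)⁻¹) := by group
          _ = π b * (((π c * π v) * π u) * (π u)⁻¹) * (π b)⁻¹ * ((π v)⁻¹ * (π c)⁻¹) := by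
              rw [(C1.mul_right C5).eq]
          _ = π b * π c * (π v * ((π b)⁻¹ * (π v)⁻¹)) * (π c)⁻¹ := by group
          _ = π b * π c * (((π b)⁻¹ * (π v)⁻¹) * π v) * (π c)⁻¹ := by
              rw [(C4.inv_right.mul_right (Commute.refl (π v)).inv_right).eq]
          _ = π b * π c * (π b)⁻¹ * (π c)⁻¹ := by group
      rw [map_mul, map_mul, map_mul, l1, ← map_mul]
      simp
    have e3 : b * a * b⁻¹ * a⁻¹ * (P * c * R) =
        (P * ((b * u) * (c * v) * (b * u)⁻¹ * (c * v)⁻¹ * (b * c * b⁻¹ * c⁻¹)⁻¹) * P⁻¹) *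
          (P * ((b * g) * a * (b * g)⁻¹) * R) := by
      have e4 : b * a * b⁻¹ * a⁻¹ = P * ((b * u) * (c * v) * (b * u)⁻¹ * (c * v)⁻¹) * P⁻¹ := by
        calc b * a * b⁻¹ * a⁻¹ = (P * (b * u) * P⁻¹) * (P * (c * v) * P⁻¹) *
              (P * (b * u) * P⁻¹)⁻¹ * (P * (c * v) * P⁻¹)⁻¹ := by rw [← e1, ← e2]
          _ = _ := by group
      rw [e4]
      have e5 : (b * g) * a * (b * g)⁻¹ = b * c * b⁻¹ := by rw [hc]; group
      rw [e5]
      group
    rw [e3]
    exact (hq _ (hR _)).1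
  have c3 : ∀ a ∈ as, ∀ b ∈ as, π b * π a = π a * π b := by
    intro a ha b hb
    refine (hcomm_iff b a).1 fun x hx => ⟨key a ha b hb x hx, ?_⟩
    have h := key b hb a ha x hx
    have h2 : (b * a * b⁻¹ * a⁻¹)⁻¹ = a * b * a⁻¹ * b⁻¹ := by group
    rw [h2]
    exact h
  -- the generators commute modulo `Q`
  have hNc : N = Subgroup.closure ((M0 : Set M) ∪ {a | a ∈ as}) := by
    rw [hN, Subgroup.closure_union, Subgroup.closure_eq]
  have c4 : ∀ s ∈ ((M0 : Set M) ∪ {a | a ∈ as}), ∀ t ∈ ((M0 : Set M) ∪ {a | a ∈ as}),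
      π s * π t = π t * π s := by
    rintro s (hs | hs) t (ht | ht)
    · rw [← map_mul, hM0 s hs t ht, map_mul]
    · exact (c1 t ht s hs).symm
    · exact c1 s hs t ht
    · exact c3 t ht s hs
  have c5 : ∀ s ∈ ((M0 : Set M) ∪ {a | a ∈ as}), ∀ n ∈ N, π s * π n = π n * π s := by
    intro s hs n hn'
    rw [hNc] at hn'
    have h1 : Subgroup.closure ((M0 : Set M) ∪ {a | a ∈ as}) ≤
        (Subgroup.centralizer {π s}).comap π := by
      rw [Subgroup.closure_le]
      intro t ht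
      rw [SetLike.mem_coe, Subgroup.mem_comap, Subgroup.mem_centralizer_singleton_iff]
      exact (c4 s hs t ht).symm
    have h2 := h1 hn'
    rw [Subgroup.mem_comap, Subgroup.mem_centralizer_singleton_iff] at h2
    exact h2.symm
  have c6 : ∀ n ∈ N, ∀ n' ∈ N, π n * π n' = π n' * π n := by
    intro n hn1 n' hn2
    rw [hNc] at hn2
    have h1 : Subgroup.closure ((M0 : Set M) ∪ {a | a ∈ as}) ≤
        (Subgroup.centralizer {π n}).comap π := by
      rw [Subgroup.closure_le]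
      intro t ht
      rw [SetLike.mem_coe, Subgroup.mem_comap, Subgroup.mem_centralizer_singleton_iff]
      exact c5 t ht n hn1
    have h2 := h1 hn2
    rw [Subgroup.mem_comap, Subgroup.mem_centralizer_singleton_iff] at h2
    exact h2.symm
  have hle : ⁅N, N⁆ ≤ Q as := by
    rw [Subgroup.commutator_le]
    intro n hn1 n' hn2
    rw [commutatorElement_def]
    exact (hcomm_iff n n').2 (c6 n hn1 n' hn2)
  exact (hle hz x hx).1

end Pool.Agent.H19MB
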